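import Pool.Agent.Helper68.LM.St

/-!
# Project LM (MP_cb927e_an): module TD

Strong type of the maximal function of the `D_k` for `1 < p < 2`.
-/

set_option autoImplicit false

open MeasureTheory Set Filter Topology
open scoped ENNReal

namespace Pool.Agent.Helper95.LM

open Pool.Agent.Helper68.LM

lemma bb_indicator (g : Pl → ℝ) (hg : BB g) (S : Set Pl) (hS : MeasurableSet S) :
    BB (S.indicator g) := by
  obtain ⟨hm, K, hK, hK2⟩ := hg
  refine ⟨hm.indicator hS, K, ?_, ?_⟩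
  · intro x
    by_cases h : x ∈ S
    · rw [indicator_of_mem h]
      exact hK x
    · rw [indicator_of_notMem h, abs_zero]
      exact (abs_nonneg _).trans (hK x)
  · intro x hx
    by_cases h : x ∈ S
    · rw [indicator_of_mem h]
      exact hK2 x hx
    · rw [indicator_of_notMem h]

lemma bb_Dk (hBBC : StBBC) (ν : Measure Pl) (R L : ℝ) (hν : Bd R L ν) (a b : ℕ) (k : ℤ)
    (g : Pl → ℝ) (hg : BB g) : BB (Dk ν a b k g) := by
  unfold Dk
  apply hBBC.2.2.1 ν R L _ _ hν (by positivity)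
  exact hBBC.1 _ _ (hBBC.2.1 g _ hg) (hBBC.2.1 g _ hg)

lemma Dk_add (hBBC : StBBC) (ν : Measure Pl) (R L : ℝ) (hν : Bd R L ν) (a b : ℕ) (k : ℤ)
    (g h : Pl → ℝ) (hg : BB g) (hh : BB h) (x : Pl) :
    Dk ν a b k (fun y => g y + h y) x = Dk ν a b k g x + Dk ν a b k h x := by
  unfold Dk
  have e : (fun x => Sm ((2 : ℝ) ^ (k - (a : ℤ))) (fun y => g y + h y) x
      - Sm ((2 : ℝ) ^ (k - (b : ℤ))) (fun y => g y + h y) x)
      = fun x => (Sm ((2 : ℝ) ^ (k - (a : ℤ))) g x - Sm ((2 : ℝ) ^ (k - (b : ℤ))) g x)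
        + (Sm ((2 : ℝ) ^ (k - (a : ℤ))) h x - Sm ((2 : ℝ) ^ (k - (b : ℤ))) h x) := by
    funext x
    rw [hBBC.2.2.2.2.2.1 g h _ x hg hh, hBBC.2.2.2.2.2.1 g h _ x hg hh]
    ring
  rw [e]
  exact hBBC.2.2.2.2.2.2 ν R L _ _ _ x hν
    (hBBC.1 _ _ (hBBC.2.1 g _ hg) (hBBC.2.1 g _ hg))
    (hBBC.1 _ _ (hBBC.2.1 h _ hh) (hBBC.2.1 h _ hh))

/-- Chebyshev's inequality in `L^2` -/
lemma cheb (u : ℤ → Pl → ℝ) (hu : ∀ k, Measurable (u k)) (A lam : ℝ) (hlam : 0 < lam)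
    (I : ℝ≥0∞)
    (h : ∑' k : ℤ, ∫⁻ x, ‖u k x‖ₑ ^ 2 ≤ ENNReal.ofReal (A ^ 2) * I) :
    volume {x | ENNReal.ofReal (lam / 2) < ⨆ k : ℤ, ‖u k x‖ₑ} ≤
      ENNReal.ofReal (4 * A ^ 2 / lam ^ 2) * I := by
  have hl2 : 0 < (lam / 2) ^ 2 := by positivity
  have hsub : {x | ENNReal.ofReal (lam / 2) < ⨆ k : ℤ, ‖u k x‖ₑ}
      ⊆ {x | ENNReal.ofReal ((lam / 2) ^ 2) ≤ ∑' k : ℤ, ‖u k x‖ₑ ^ 2} := by
    intro x hx
    rw [mem_ofPred_eq, lt_iSup_iff] at hx
    obtain ⟨k, hk⟩ := hx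
    rw [mem_ofPred_eq, ENNReal.ofReal_pow (by positivity)]
    exact (pow_le_pow_left₀ zero_le hk.le 2).trans
      (ENNReal.le_tsum (f := fun k : ℤ => ‖u k x‖ₑ ^ 2) k)
  have hmeas : Measurable (fun x => ∑' k : ℤ, ‖u k x‖ₑ ^ 2) :=
    Measurable.tsum fun k => (hu k).enorm.pow_const 2
  have h1 := meas_ge_le_lintegral_div (μ := (volume : Measure Pl)) hmeas.aemeasurable
    (ε := ENNReal.ofReal ((lam / 2) ^ 2)) (by
      rw [Ne, ENNReal.ofReal_eq_zero]
      exact not_le.2 hl2) ENNReal.ofReal_ne_top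
  rw [lintegral_tsum fun k => ((hu k).enorm.pow_const 2).aemeasurable] at h1
  refine (measure_mono hsub).trans (h1.trans ?_)
  calc (∑' k : ℤ, ∫⁻ x, ‖u k x‖ₑ ^ 2) / ENNReal.ofReal ((lam / 2) ^ 2)
      ≤ (ENNReal.ofReal (A ^ 2) * I) / ENNReal.ofReal ((lam / 2) ^ 2) :=
        ENNReal.div_le_div_right h _
    _ = ENNReal.ofReal (4 * A ^ 2 / lam ^ 2) * I := by
        rw [div_eq_mul_inv, ← ENNReal.ofReal_inv_of_pos hl2, mul_right_comm,
          ← ENNReal.ofReal_mul (by positivity)]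
        congr 2
        field_simp
        ring

theorem hTD (hBBC : StBBC) (hMZ3 : StMZ3) (hW11 : StW11) : StTD := by
  intro p R M hp1 hp2 hR hM
  obtain ⟨C₁, hC₁, hW⟩ := hW11 R hR
  obtain ⟨C₃, hC₃, hZ⟩ := hMZ3 p hp1 hp2
  refine ⟨C₃ * (2 * C₁ * (M + 1) + 4), by positivity, ?_⟩
  intro ν L A a b hν hL hA hAM hab hL2 g hg hg0
  obtain ⟨B, hBdef⟩ : ∃ B, B = L * ((a : ℝ) + 1) := ⟨_, rfl⟩
  have hB : 0 < B := by
    rw [hBdef]
    positivity
  rw [← hBdef] at hAM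
  obtain ⟨s, hsdef⟩ : ∃ s, s = B / A ^ 2 := ⟨_, rfl⟩
  have hs : 0 < s := by
    rw [hsdef]
    positivity
  have hweak : ∀ lam : ℝ, 0 < lam →
      volume {x | ENNReal.ofReal lam < ⨆ k : ℤ, ‖Dk ν a b k g x‖ₑ} ≤
      ENNReal.ofReal (2 * C₁ * (A + B) / lam) *
          (∫⁻ x in {x | s * lam < g x}, ENNReal.ofReal (g x)) +
        ENNReal.ofReal (4 * A ^ 2 / lam ^ 2) *
          ∫⁻ x, ENNReal.ofReal (min (g x) (s * lam)) ^ 2 := by
    intro lam hlam
    have hc : 0 < s * lam := by positivity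
    have hS : MeasurableSet {x : Pl | s * lam < g x} := measurableSet_lt measurable_const hg.1
    obtain ⟨g₂, hg₂⟩ : ∃ g₂ : Pl → ℝ, g₂ = {x : Pl | s * lam < g x}.indicator g := ⟨_, rfl⟩
    obtain ⟨g₁, hg₁⟩ : ∃ g₁ : Pl → ℝ, g₁ = {x : Pl | s * lam < g x}ᶜ.indicator g := ⟨_, rfl⟩
    have hB₂ : BB g₂ := by
      rw [hg₂]
      exact bb_indicator g hg _ hS
    have hB₁ : BB g₁ := by
      rw [hg₁]
      exact bb_indicator g hg _ hS.compl
    have hsum : g = fun x => g₁ x + g₂ x := by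
      funext x
      rw [hg₁, hg₂]
      by_cases h : x ∈ {x : Pl | s * lam < g x}
      · rw [indicator_of_mem h, indicator_of_notMem (notMem_compl_iff.2 h), zero_add]
      · rw [indicator_of_notMem h, indicator_of_mem (mem_compl h), add_zero]
    have hsub : {x | ENNReal.ofReal lam < ⨆ k : ℤ, ‖Dk ν a b k g x‖ₑ}
        ⊆ {x | ENNReal.ofReal (lam / 2) < ⨆ k : ℤ, ‖Dk ν a b k g₂ x‖ₑ}
          ∪ {x | ENNReal.ofReal (lam / 2) < ⨆ k : ℤ, ‖Dk ν a b k g₁ x‖ₑ} := by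
      intro x hx
      by_contra hcon
      rw [mem_union, not_or, mem_ofPred_eq, mem_ofPred_eq, not_lt, not_lt] at hcon
      rw [mem_ofPred_eq] at hx
      apply absurd hx
      rw [not_lt]
      refine iSup_le fun k => ?_
      have e : Dk ν a b k g x = Dk ν a b k g₁ x + Dk ν a b k g₂ x := by
        conv_lhs => rw [hsum]
        exact Dk_add hBBC ν R L hν a b k g₁ g₂ hB₁ hB₂ x
      rw [e]
      calc ‖Dk ν a b k g₁ x + Dk ν a b k g₂ x‖ₑ
          ≤ ‖Dk ν a b k g₁ x‖ₑ + ‖Dk ν a b k g₂ x‖ₑ := enorm_add_le _ _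
        _ ≤ ENNReal.ofReal (lam / 2) + ENNReal.ofReal (lam / 2) :=
            add_le_add ((le_iSup (fun k : ℤ => ‖Dk ν a b k g₁ x‖ₑ) k).trans hcon.2)
              ((le_iSup (fun k : ℤ => ‖Dk ν a b k g₂ x‖ₑ) k).trans hcon.1)
        _ = ENNReal.ofReal lam := by
            rw [← ENNReal.ofReal_add (by positivity) (by positivity)]
            congr 1
            ring
    refine (measure_mono hsub).trans ((measure_union_le _ _).trans (add_le_add ?_ ?_))
    · have hg20 : ∀ x, 0 ≤ g₂ x := by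
        intro x
        rw [hg₂]
        exact indicator_nonneg (fun y _ => hg0 y) x
      have h1 := hW ν L A a b hν hL hA hab hL2 g₂ hB₂ hg20 (lam / 2) (by positivity)
      rw [← hBdef] at h1
      refine h1.trans (le_of_eq ?_)
      have e1 : C₁ * (A + B) / (lam / 2) = 2 * C₁ * (A + B) / lam := by
        field_simp
      rw [e1, ← lintegral_indicator hS]
      congr 1
      refine lintegral_congr fun x => ?_
      rw [hg₂]
      by_cases h : x ∈ {x : Pl | s * lam < g x}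
      · rw [indicator_of_mem h, indicator_of_mem h, Real.enorm_of_nonneg (hg0 x)]
      · rw [indicator_of_notMem h, indicator_of_notMem h, enorm_zero]
    · have h1 := cheb (fun k => Dk ν a b k g₁) (fun k => (bb_Dk hBBC ν R L hν a b k g₁ hB₁).1)
        A lam hlam _ (hL2 g₁ hB₁)
      refine h1.trans (mul_le_mul_right (lintegral_mono fun x => ?_) _)
      refine pow_le_pow_left₀ zero_le ?_ 2
      have h2 : 0 ≤ g₁ x := by
        rw [hg₁]
        exact indicator_nonneg (fun y _ => hg0 y) x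
      rw [Real.enorm_of_nonneg h2]
      apply ENNReal.ofReal_le_ofReal
      rw [hg₁]
      by_cases h : x ∈ {x : Pl | s * lam < g x}
      · rw [indicator_of_notMem (notMem_compl_iff.2 h)]
        exact le_min (hg0 x) hc.le
      · rw [indicator_of_mem (mem_compl h)]
        exact le_min le_rfl (not_lt.1 h)
  have hF : Measurable (fun x => ⨆ k : ℤ, ‖Dk ν a b k g x‖ₑ) :=
    Measurable.iSup fun k => (bb_Dk hBBC ν R L hν a b k g hg).1.enorm
  have hmain := hZ g (fun x => ⨆ k : ℤ, ‖Dk ν a b k g x‖ₑ) s (2 * C₁ * (A + B)) (4 * A ^ 2)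
    hg.1 hg0 hF hs (by positivity) (by positivity) hweak
  refine hmain.trans (mul_le_mul_left (ENNReal.ofReal_le_ofReal ?_) _)
  rw [← hBdef]
  have hA2 : 0 < A ^ 2 := by positivity
  have e1 : s ^ (1 - p) = B ^ (1 - p) * (A ^ 2) ^ (p - 1) := by
    rw [hsdef, Real.div_rpow hB.le hA2.le, div_eq_mul_inv, ← Real.rpow_neg hA2.le]
    congr 2
    ring
  have e2 : A ^ 2 * s ^ (2 - p) = B ^ (2 - p) * (A ^ 2) ^ (p - 1) := by
    rw [hsdef, Real.div_rpow hB.le hA2.le, div_eq_mul_inv, ← Real.rpow_neg hA2.le]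
    have e3 : (A ^ 2) ^ (p - 1) = A ^ 2 * (A ^ 2) ^ (-(2 - p)) := by
      conv_rhs => rw [← Real.rpow_one (A ^ 2)]
      rw [← Real.rpow_mul hA2.le, one_mul, ← Real.rpow_add hA2]
      congr 1
      ring
    rw [e3]
    ring
  have e4 : (A + B) * B ^ (1 - p) ≤ (M + 1) * B ^ (2 - p) := by
    have e5 : B ^ (2 - p) = B * B ^ (1 - p) := by
      conv_rhs => rw [← Real.rpow_one B]
      rw [← Real.rpow_mul hB.le, one_mul, ← Real.rpow_add hB]
      congr 1
      ring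
    rw [e5, ← mul_assoc]
    apply mul_le_mul_of_nonneg_right _ (Real.rpow_nonneg hB.le _)
    linarith
  have hP : 0 ≤ (A ^ 2) ^ (p - 1) := Real.rpow_nonneg hA2.le _
  calc C₃ * (2 * C₁ * (A + B) * s ^ (1 - p) + 4 * A ^ 2 * s ^ (2 - p))
      = C₃ * (2 * C₁ * ((A + B) * B ^ (1 - p)) * (A ^ 2) ^ (p - 1)
          + 4 * (A ^ 2 * s ^ (2 - p))) := by
        rw [e1]
        ring
    _ ≤ C₃ * (2 * C₁ * ((M + 1) * B ^ (2 - p)) * (A ^ 2) ^ (p - 1)
          + 4 * (A ^ 2 * s ^ (2 - p))) := by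
        apply mul_le_mul_of_nonneg_left _ hC₃.le
        apply add_le_add _ le_rfl
        apply mul_le_mul_of_nonneg_right _ hP
        exact mul_le_mul_of_nonneg_left e4 (by positivity)
    _ = C₃ * (2 * C₁ * (M + 1) + 4) * (B ^ (2 - p) * (A ^ 2) ^ (p - 1)) := by
        rw [e2]
        ring

end Pool.Agent.Helper95.LM
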